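import Mathlib

/-!
Categorically closed semigroups: definitions.
-/

namespace Q17.CCl

universe u v

/-- A class of semigroups with a topology (all carriers in `Type u`). -/
abbrev SemiClass : Type (u + 1) := ∀ Y : Type u, TopologicalSpace Y → Semigroup Y → Prop

/-- The class of `T₁` topological semigroups (multiplication is jointly continuous). -/
def T1S : SemiClass.{u} := fun Y t _ => @ContinuousMul Y t _ ∧ @T1Space Y t

/-- The class of Hausdorff topological semigroups with a base of clopen sets. -/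
def TzS : SemiClass.{u} := fun Y t _ => @ContinuousMul Y t _ ∧ @T2Space Y t ∧
  @TopologicalSpace.IsTopologicalBasis Y t {s : Set Y | @IsClopen Y t s}

/-- `X` is `C`-closed: for every `Y` in `C` and every injective homomorphism `h : X → Y` that is a
topological embedding of the discrete space `X`, the image of `h` is closed in `Y`. -/
def CClosed (C : SemiClass.{u}) (X : Type v) [Semigroup X] : Prop :=
  ∀ (Y : Type u) (t : TopologicalSpace Y) (_ : Semigroup Y), C Y t ‹_› →
    ∀ h : X →ₙ* Y, @Topology.IsEmbedding X Y ⊥ t h → @IsClosed Y t (Set.range h)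

/-- (Possibly empty) two-sided ideals of a semigroup. -/
def IsIdeal {X : Type v} [Semigroup X] (I : Set X) : Prop :=
  ∀ x ∈ I, ∀ y, x * y ∈ I ∧ y * x ∈ I

/-- The congruence `(I × I) ∪ {(x, x)}` of an ideal `I`. -/
def reesCon {X : Type v} [Semigroup X] (I : Set X) (hI : IsIdeal I) : Con X where
  r x y := (x ∈ I ∧ y ∈ I) ∨ x = y
  iseqv := by
    refine ⟨fun x => Or.inr rfl, ?_, ?_⟩
    · rintro x y (⟨h1, h2⟩ | h)
      · exact Or.inl ⟨h2, h1⟩
      · exact Or.inr h.symm
    · rintro x y z (⟨h1, h2⟩ | rfl) (⟨h3, h4⟩ | rfl)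
      · exact Or.inl ⟨h1, h4⟩
      · exact Or.inl ⟨h1, h2⟩
      · exact Or.inl ⟨h3, h4⟩
      · exact Or.inr rfl
  mul' := by
    rintro w x y z (⟨h1, h2⟩ | rfl) (⟨h3, h4⟩ | rfl)
    · exact Or.inl ⟨(hI _ h1 _).1, (hI _ h2 _).1⟩
    · exact Or.inl ⟨(hI _ h1 _).1, (hI _ h2 _).1⟩
    · exact Or.inl ⟨(hI _ h3 _).2, (hI _ h4 _).2⟩
    · exact Or.inr rfl

/-- `X` is ideally `C`-closed: `X / I` is `C`-closed for every ideal `I`. -/
def IdeallyClosed (C : SemiClass.{u}) (X : Type v) [Semigroup X] : Prop :=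
  ∀ (I : Set X) (hI : IsIdeal I), CClosed C (reesCon I hI).Quotient

/-- `X` is projectively `C`-closed: `X / ≈` is `C`-closed for every congruence `≈`. -/
def ProjectivelyClosed (C : SemiClass.{u}) (X : Type v) [Semigroup X] : Prop :=
  ∀ c : Con X, CClosed C c.Quotient

end Q17.CCl
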