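import Pool.Agent.Q17.CCl.Defs

namespace Q17.CCl

universe u

open Set Topology

/-- the exponent two group -/
abbrev G : Type := ℕ → ZMod 2

/-- the sandwich matrix -/
def P : Bool → ℕ → G
  | false, _ => 0
  | true, i => Pi.single i 1

/-- the Rees matrix semigroup -/
@[ext] structure RM : Type where
  i : ℕ
  g : G
  l : Bool

instance : Mul RM := ⟨fun x y => ⟨x.i, x.g + P x.l y.i + y.g, y.l⟩⟩

@[simp] theorem mul_i (x y : RM) : (x * y).i = x.i := rfl
@[simp] theorem mul_l (x y : RM) : (x * y).l = y.l := rfl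
@[simp] theorem mul_g (x y : RM) : (x * y).g = x.g + P x.l y.i + y.g := rfl

instance : Semigroup RM where
  mul_assoc x y z := by
    ext1
    · rfl
    · simp only [mul_g, mul_l, mul_i]
      abel
    · rfl

theorem add_self (g : G) : g + g = 0 := by
  funext n
  exact CharTwo.add_self_eq_zero (g n)

/-- the maximal subgroup -/
def H : Set RM := {x | x.i = 0 ∧ x.l = false}

def e : RM := ⟨0, 0, false⟩

def av (ν : Bool) : RM := ⟨0, 0, ν⟩

theorem mul_self_H {x : RM} (hx : x ∈ H) : x * x = e := by
  obtain ⟨h1, h2⟩ := hx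
  ext1
  · exact h1
  · simp only [mul_g, h2, P, add_zero]
    exact add_self _
  · exact h2

theorem eq_of_mul_H {x y : RM} (hx : x ∈ H) (hy : y ∈ H) (h : x * y = e) : x = y := by
  obtain ⟨h1, h2⟩ := hx
  obtain ⟨h3, h4⟩ := hy
  have h5 := congrArg RM.g h
  simp only [mul_g, h2, P, add_zero] at h5
  have h6 : x.g = y.g := by
    have h7 : x.g + y.g + y.g = y.g := by
      rw [h5]; simp [e]
    rw [add_assoc, add_self, add_zero] at h7
    exact h7
  ext1
  · rw [h1, h3]
  · exact h6
  · rw [h2, h4]

theorem sandwich_mem (ν : Bool) (x : RM) : av ν * x * av false ∈ H := ⟨rfl, rfl⟩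

theorem isolate {Y : Type u} [TopologicalSpace Y] {h : RM → Y} (he : @IsEmbedding RM Y ⊥ _ h) (x : RM) :
    ∃ U : Set Y, IsOpen U ∧ h x ∈ U ∧ ∀ x', h x' ∈ U → x' = x := by
  let _ : TopologicalSpace RM := ⊥
  have : DiscreteTopology RM := ⟨rfl⟩
  have : IsOpen ({x} : Set RM) := isOpen_discrete _
  obtain ⟨U, hU, hU'⟩ := he.isInducing.isOpen_iff.1 this
  refine ⟨U, hU, ?_, fun x' hx' => ?_⟩
  · have : x ∈ h ⁻¹' U := by rw [hU']; rfl
    exact this
  · have : x' ∈ h ⁻¹' U := hx'
    rw [hU'] at this
    exact this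

section
variable {Y : Type u} [TopologicalSpace Y] [T1Space Y] [Semigroup Y] [ContinuousMul Y]

theorem closed_H (h : RM →ₙ* Y) (he : @IsEmbedding RM Y ⊥ _ h) {z : Y}
    (hz : z ∈ closure (h '' H)) : ∃ c ∈ H, h c = z := by
  have hsq : z * z = h e := by
    have hcl : IsClosed {w : Y | w * w = h e} :=
      (isClosed_singleton (x := h e)).preimage (continuous_id.mul continuous_id)
    refine closure_minimal ?_ hcl hz
    rintro _ ⟨x, hx, rfl⟩
    change h x * h x = h e
    rw [← map_mul, mul_self_H hx]
  obtain ⟨U, hU, heU, hU'⟩ := isolate he e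
  have hmul : (fun p : Y × Y => p.1 * p.2) ⁻¹' U ∈ nhds (z, z) := by
    refine (hU.preimage continuous_mul).mem_nhds ?_
    change z * z ∈ U
    rw [hsq]; exact heU
  obtain ⟨V₁, V₂, hV₁, hz1, hV₂, hz2, hsub⟩ := mem_nhds_prod_iff'.1 hmul
  have hV : IsOpen (V₁ ∩ V₂) := hV₁.inter hV₂
  obtain ⟨_, hy0, x0, hx0, rfl⟩ := mem_closure_iff.1 hz (V₁ ∩ V₂) hV ⟨hz1, hz2⟩
  refine ⟨x0, hx0, ?_⟩
  have hsing : (V₁ ∩ V₂) ∩ h '' H ⊆ {h x0} := by
    rintro _ ⟨⟨h1, -⟩, x, hx, rfl⟩
    have : h x * h x0 ∈ U := hsub (mk_mem_prod h1 hy0.2)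
    rw [← map_mul] at this
    have := eq_of_mul_H hx hx0 (hU' _ this)
    rw [this]
    rfl
  have hz' : z ∈ closure ((V₁ ∩ V₂) ∩ h '' H) := hV.inter_closure ⟨⟨hz1, hz2⟩, hz⟩
  have := closure_mono hsing hz'
  rw [closure_singleton] at this
  exact this.symm

theorem closed_range (h : RM →ₙ* Y) (he : @IsEmbedding RM Y ⊥ _ h) : IsClosed (range h) := by
  rw [← closure_subset_iff_isClosed]
  intro y hy
  have key : ∀ ν : Bool, ∃ c : RM, ∃ W : Set Y, IsOpen W ∧ y ∈ W ∧
      ∀ x, h x ∈ W → av ν * x * av false = c := by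
    intro ν
    have hcont : Continuous (fun w : Y => h (av ν) * w * h (av false)) :=
      (continuous_const.mul continuous_id).mul continuous_const
    have hmem : h (av ν) * y * h (av false) ∈ closure (h '' H) := by
      refine map_mem_closure (f := fun w : Y => h (av ν) * w * h (av false)) hcont hy ?_
      rintro _ ⟨x, rfl⟩
      refine ⟨av ν * x * av false, sandwich_mem ν x, ?_⟩
      rw [map_mul, map_mul]
    obtain ⟨c, -, hc⟩ := closed_H h he hmem
    obtain ⟨U, hU, hcU, hU'⟩ := isolate he c
    refine ⟨c, _, hU.preimage hcont, ?_, ?_⟩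
    · change h (av ν) * y * h (av false) ∈ U
      rw [← hc]; exact hcU
    · intro x hx
      refine hU' _ ?_
      rw [map_mul, map_mul]
      exact hx
  obtain ⟨c0, W0, hW0, hy0, hc0⟩ := key false
  obtain ⟨c1, W1, hW1, hy1, hc1⟩ := key true
  have hW : IsOpen (W0 ∩ W1) := hW0.inter hW1
  have hfin : ((W0 ∩ W1) ∩ range h).Finite := by
    have hF : {x : RM | av false * x * av false = c0 ∧ av true * x * av false = c1}.Finite := by
      refine Set.Finite.of_finite_image (f := RM.l) (toFinite _) ?_
      rintro x ⟨h1, h2⟩ x' ⟨h1', h2'⟩ hl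
      have a1 := congrArg RM.g (h1.trans h1'.symm)
      have a2 := congrArg RM.g (h2.trans h2'.symm)
      simp only [mul_g, mul_l, av, P, hl] at a1 a2
      have a3 : x.g = x'.g := by simpa using a1
      rw [a3] at a2
      have a4 : (Pi.single x.i 1 : G) = Pi.single x'.i 1 := by simpa using a2
      have a5 : x.i = x'.i := by
        by_contra hne
        have := congrFun a4 x.i
        rw [Pi.single_eq_same, Pi.single_eq_of_ne hne] at this
        exact one_ne_zero this
      exact RM.ext a5 a3 hl
    refine (hF.image h).subset ?_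
    rintro _ ⟨⟨h1, h2⟩, x, rfl⟩
    exact ⟨x, ⟨hc0 x h1, hc1 x h2⟩, rfl⟩
  have hy' : y ∈ closure ((W0 ∩ W1) ∩ range h) := hW.inter_closure ⟨⟨hy0, hy1⟩, hy⟩
  rw [hfin.isClosed.closure_eq] at hy'
  exact hy'.2

end

theorem ideal_trivial (I : Set RM) (hI : IsIdeal I) : I = ∅ ∨ I = univ := by
  rcases I.eq_empty_or_nonempty with h | ⟨x, hx⟩
  · exact Or.inl h
  · right
    refine eq_univ_of_forall fun y => ?_
    -- y = a * x * b
    have h1 := (hI _ (hI x hx ⟨y.i, 0, y.l⟩).2 ⟨0, y.g + P y.l x.i + x.g + P x.l 0, y.l⟩).1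
    convert h1 using 1
    ext1
    · rfl
    · simp only [mul_g, mul_l, zero_add]
      have h2 : P y.l x.i + x.g + P x.l 0 + (y.g + P y.l x.i + x.g + P x.l 0) =
        y.g + (P y.l x.i + P y.l x.i) + (x.g + x.g) + (P x.l 0 + P x.l 0) := by abel
      rw [h2, add_self, add_self, add_self, add_zero, add_zero, add_zero]
    · rfl

theorem ideally_closed (C : SemiClass.{u}) (hC : ∀ Y t s, C Y t s → T1S Y t s) :
    IdeallyClosed C RM := by
  intro I hI Y t s hY h he
  obtain ⟨hm, ht⟩ := hC _ _ _ hY
  rcases ideal_trivial I hI with rfl | rfl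
  · -- quotient by the empty ideal
    let k : RM →ₙ* Y := h.comp ⟨((↑) : RM → (reesCon ∅ hI).Quotient), fun _ _ => rfl⟩
    have hinj : Function.Injective ((↑) : RM → (reesCon ∅ hI).Quotient) := by
      intro x y hxy
      rcases (Con.eq _).1 hxy with ⟨h1, -⟩ | h1
      · exact h1.elim
      · exact h1
    have hsurj : Function.Surjective ((↑) : RM → (reesCon ∅ hI).Quotient) := Quotient.mk_surjective
    have hk : @IsEmbedding RM Y ⊥ _ k := by
      let _ : TopologicalSpace RM := ⊥
      let _ : TopologicalSpace (reesCon ∅ hI).Quotient := ⊥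
      have : DiscreteTopology RM := ⟨rfl⟩
      have : DiscreteTopology (reesCon ∅ hI).Quotient := ⟨rfl⟩
      have : IsEmbedding ((↑) : RM → (reesCon ∅ hI).Quotient) :=
        (IsClosedEmbedding.of_continuous_injective_isClosedMap continuous_of_discreteTopology hinj
          (fun _ _ => isClosed_discrete _)).isEmbedding
      change IsEmbedding (h ∘ ((↑) : RM → (reesCon ∅ hI).Quotient))
      exact IsEmbedding.comp he this
    have := closed_range k hk
    have hr : range k = range h := by
      change range (h ∘ ((↑) : RM → (reesCon ∅ hI).Quotient)) = range h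
      exact hsurj.range_comp h
    rw [hr] at this
    exact this
  · -- one point quotient
    have hsub : (range h).Finite := by
      have : Subsingleton (reesCon univ hI).Quotient := by
        refine ⟨fun a b => ?_⟩
        induction a using Con.induction_on with | _ a => ?_
        induction b using Con.induction_on with | _ b => ?_
        exact (Con.eq _).2 (Or.inl ⟨trivial, trivial⟩)
      exact Set.finite_range h
    exact hsub.isClosed

/-- The congruence of the projection to the first coordinate. -/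
def projCon : Con RM where
  r x y := x.i = y.i
  iseqv := ⟨fun _ => rfl, fun h => h.symm, fun h1 h2 => h1.trans h2⟩
  mul' := fun h _ => h

/-- sequences of booleans with the left zero multiplication -/
def LZ : Type u := ℕ → ULift.{u} Bool

instance : TopologicalSpace LZ.{u} := inferInstanceAs (TopologicalSpace (ℕ → ULift.{u} Bool))
instance : T2Space LZ.{u} := inferInstanceAs (T2Space (ℕ → ULift.{u} Bool))
instance : CompactSpace LZ.{u} := inferInstanceAs (CompactSpace (ℕ → ULift.{u} Bool))
instance : TotallyDisconnectedSpace LZ.{u} :=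
  inferInstanceAs (TotallyDisconnectedSpace (ℕ → ULift.{u} Bool))
instance : Semigroup LZ.{u} where
  mul a _ := a
  mul_assoc _ _ _ := rfl

theorem not_projectively_closed (C : SemiClass.{u}) (hC : ∀ Y t s, TzS Y t s → C Y t s) :
    ¬ ProjectivelyClosed C RM := by
  intro hP
  have hY : C LZ.{u} inferInstance inferInstance := by
    refine hC _ _ _ ⟨⟨?_⟩, inferInstance, ?_⟩
    · exact continuous_fst
    · exact isTopologicalBasis_isClopen
  let v : ℕ → LZ.{u} := fun n => Function.update (fun _ => ⟨false⟩ : ℕ → ULift.{u} Bool) n ⟨true⟩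
  let h : projCon.Quotient →ₙ* LZ.{u} :=
    { toFun := fun a => v (Con.liftOn a (fun x => x.i) (fun _ _ h => h))
      map_mul' := by
        intro a b
        induction a using Con.induction_on with | _ a => ?_
        induction b using Con.induction_on with | _ b => ?_
        rfl }
  have hv : ∀ n m, v n m = ⟨true⟩ ↔ m = n := by
    intro n m
    by_cases hmn : m = n
    · subst hmn; simp [v]
    · simp [v, hmn]
  have hrange : ∀ n, v n ∈ range h := fun n => ⟨((⟨n, 0, false⟩ : RM) : projCon.Quotient), rfl⟩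
  have he : @IsEmbedding _ LZ.{u} ⊥ _ h := by
    let _ : TopologicalSpace projCon.Quotient := ⊥
    have : DiscreteTopology projCon.Quotient := ⟨rfl⟩
    refine ⟨⟨?_⟩, ?_⟩
    · refine (eq_bot_of_singletons_open ?_).symm
      intro a
      induction a using Con.induction_on with | _ a => ?_
      refine isOpen_induced_iff.2 ⟨{y : ℕ → ULift.{u} Bool | y a.i = ⟨true⟩}, ?_, ?_⟩
      · exact (isOpen_discrete ({⟨true⟩} : Set (ULift.{u} Bool))).preimage
          (continuous_apply (A := fun _ : ℕ => ULift.{u} Bool) a.i)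
      · ext b
        induction b using Con.induction_on with | _ b => ?_
        change v b.i a.i = ⟨true⟩ ↔ (b : projCon.Quotient) = a
        rw [hv, Con.eq]
        exact eq_comm
    · intro a b hab
      induction a using Con.induction_on with | _ a => ?_
      induction b using Con.induction_on with | _ b => ?_
      refine (Con.eq _).2 ?_
      change v a.i = v b.i at hab
      have : v b.i a.i = ⟨true⟩ := by rw [← hab, hv]
      exact (hv _ _).1 this
  have hcl := hP projCon LZ.{u} inferInstance inferInstance hY h he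
  have hlim : Filter.Tendsto (v : ℕ → ℕ → ULift.{u} Bool) Filter.atTop
      (nhds (fun _ => ⟨false⟩ : ℕ → ULift.{u} Bool)) := by
    refine tendsto_pi_nhds.2 ?_
    intro k
    refine tendsto_const_nhds.congr' ?_
    filter_upwards [Filter.eventually_gt_atTop k] with n hn
    have : k ≠ n := by omega
    simp [v, this]
  have hmem : (fun _ => ⟨false⟩ : LZ.{u}) ∈ range h :=
    IsClosed.mem_of_tendsto hcl hlim (Filter.Eventually.of_forall hrange)
  obtain ⟨a, ha⟩ := hmem
  induction a using Con.induction_on with | _ a => ?_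
  have h1 : v a.i a.i = ⟨false⟩ := congrFun ha a.i
  rw [(hv _ _).2 rfl] at h1
  exact absurd (congrArg ULift.down h1) (by simp)

end Q17.CCl
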